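import Pool.Agent.helper36.MP.SpecC

/-!
# Project mp: PRQ, the square of the natural coordinate near a zero of order `m`
-/

set_option autoImplicit false

open Complex Metric Set Filter Topology MeasureTheory

noncomputable section

namespace MPS

/-- local holomorphic roots -/
theorem PRQ_root (f : ℂ → ℂ) (ζ : ℂ) (r₀ : ℝ) (n : ℕ) (hn : n ≠ 0) (hr₀ : 0 < r₀)
    (hf : DifferentiableOn ℂ f (ball ζ r₀)) (hfζ : f ζ ≠ 0) :
    ∃ r > (0 : ℝ), r ≤ r₀ ∧ ∃ σ : ℂ → ℂ, DifferentiableOn ℂ σ (ball ζ r) ∧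
      ∀ z ∈ ball ζ r, σ z ^ n = f z ∧ σ z ≠ 0 := by
  have hζ : ζ ∈ ball ζ r₀ := mem_ball_self hr₀
  have hcont : ContinuousAt (fun z => f z / f ζ) ζ :=
    ((hf.differentiableAt (isOpen_ball.mem_nhds hζ)).continuousAt).div_const _
  have hsl : ∀ᶠ z in 𝓝 ζ, f z / f ζ ∈ slitPlane := by
    have h1 : f ζ / f ζ ∈ slitPlane := by rw [div_self hfζ]; exact one_mem_slitPlane
    exact hcont.eventually_mem (isOpen_slitPlane.mem_nhds h1)
  obtain ⟨r₁, hr₁, h₁⟩ := Metric.eventually_nhds_iff_ball.1 hsl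
  obtain ⟨c, hc⟩ := IsAlgClosed.exists_pow_nat_eq (f ζ) (n := n) (Nat.pos_of_ne_zero hn)
  refine ⟨min r₀ r₁, lt_min hr₀ hr₁, min_le_left _ _,
    fun z => c * (f z / f ζ) ^ ((n : ℂ)⁻¹), ?_, ?_⟩
  · intro z hz
    have hz0 : z ∈ ball ζ r₀ := ball_subset_ball (min_le_left _ _) hz
    have hz1 : z ∈ ball ζ r₁ := ball_subset_ball (min_le_right _ _) hz
    have hd : DifferentiableAt ℂ f z := hf.differentiableAt (isOpen_ball.mem_nhds hz0)
    exact (((hd.div_const _).cpow (differentiableAt_const _)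
      (h₁ z hz1)).const_mul c).differentiableWithinAt
  · intro z hz
    have hz1 : z ∈ ball ζ r₁ := ball_subset_ball (min_le_right _ _) hz
    have h3 : ((f z / f ζ) ^ ((n : ℂ)⁻¹)) ^ n = f z / f ζ := cpow_nat_inv_pow _ hn
    have h4 : (c * (f z / f ζ) ^ ((n : ℂ)⁻¹)) ^ n = f z := by
      rw [mul_pow, h3, hc]
      field_simp
    refine ⟨h4, fun h0 => ?_⟩
    have h0' : c * (f z / f ζ) ^ ((n : ℂ)⁻¹) = 0 := h0
    rw [h0', zero_pow hn] at h4
    have h5 : f z / f ζ ∈ slitPlane := h₁ z hz1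
    rw [← h4, zero_div] at h5
    exact zero_notMem_slitPlane h5

/-- the equation `(m+2) K + 2 (z-ζ) K' = 2 σ` -/
theorem PRQ_K (σ : ℂ → ℂ) (ζ : ℂ) (m : ℕ) (r : ℝ) (hσ : DifferentiableOn ℂ σ (ball ζ r)) :
    ∃ K K' : ℂ → ℂ, (∀ z ∈ ball ζ r, HasDerivAt K (K' z) z) ∧
      ∀ z ∈ ball ζ r, ((m : ℂ) + 2) * K z + 2 * (z - ζ) * K' z = 2 * σ z := by
  have hσ' : ContinuousOn (deriv σ) (ball ζ r) := (hσ.deriv isOpen_ball).continuousOn
  have hder : ∀ w ∈ ball ζ r, HasDerivAt σ (deriv σ w) w := fun w hw =>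
    (hσ.differentiableAt (isOpen_ball.mem_nhds hw)).hasDerivAt
  set F : ℂ → ℝ → ℂ := fun z u => 2 * (u : ℂ) ^ (m + 1) * σ (ζ + (u : ℂ) ^ 2 * (z - ζ)) with hF
  set F' : ℂ → ℝ → ℂ := fun z u =>
    2 * (u : ℂ) ^ (m + 3) * deriv σ (ζ + (u : ℂ) ^ 2 * (z - ζ)) with hF'
  have hmem : ∀ (s : ℝ) (z : ℂ), z ∈ ball ζ s → ∀ u ∈ Icc (0 : ℝ) 1,
      ζ + (u : ℂ) ^ 2 * (z - ζ) ∈ ball ζ s := by
    intro s z hz u hu
    rw [mem_ball, dist_eq_norm] at hz ⊢
    have h1 : ζ + (u : ℂ) ^ 2 * (z - ζ) - ζ = (u : ℂ) ^ 2 * (z - ζ) := by ring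
    rw [h1, norm_mul, norm_pow, Complex.norm_real, Real.norm_eq_abs, abs_of_nonneg hu.1]
    have h2 : u ^ 2 ≤ 1 := pow_le_one₀ hu.1 hu.2
    calc u ^ 2 * ‖z - ζ‖ ≤ 1 * ‖z - ζ‖ := mul_le_mul_of_nonneg_right h2 (norm_nonneg _)
      _ < s := by rw [one_mul]; exact hz
  have hin : ∀ z : ℂ, Continuous (fun u : ℝ => ζ + (u : ℂ) ^ 2 * (z - ζ)) := by
    intro z
    fun_prop
  have hFc : ∀ z ∈ ball ζ r, ContinuousOn (F z) (Icc (0 : ℝ) 1) := by
    intro z hz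
    refine ContinuousOn.mul (Continuous.continuousOn (by fun_prop)) ?_
    exact hσ.continuousOn.comp (hin z).continuousOn (fun u hu => hmem r z hz u hu)
  have hF'c : ∀ z ∈ ball ζ r, ContinuousOn (F' z) (Icc (0 : ℝ) 1) := by
    intro z hz
    refine ContinuousOn.mul (Continuous.continuousOn (by fun_prop)) ?_
    exact hσ'.comp (hin z).continuousOn (fun u hu => hmem r z hz u hu)
  have hFi : ∀ z ∈ ball ζ r, IntervalIntegrable (F z) volume 0 1 := fun z hz =>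
    (hFc z hz).intervalIntegrable_of_Icc zero_le_one
  have hF'i : ∀ z ∈ ball ζ r, IntervalIntegrable (F' z) volume 0 1 := fun z hz =>
    (hF'c z hz).intervalIntegrable_of_Icc zero_le_one
  have hIoc : (Set.uIoc (0 : ℝ) 1) ⊆ Icc (0 : ℝ) 1 := by
    rw [uIoc_of_le zero_le_one]
    exact Ioc_subset_Icc_self
  refine ⟨fun z => ∫ u in (0 : ℝ)..1, F z u, fun z => ∫ u in (0 : ℝ)..1, F' z u, ?_, ?_⟩
  · intro z₀ hz₀
    obtain ⟨s, hs1, hs2⟩ := exists_between (mem_ball.1 hz₀)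
    have hsub : closedBall ζ s ⊆ ball ζ r := closedBall_subset_ball hs2
    obtain ⟨M, hM⟩ := (isCompact_closedBall ζ s).exists_bound_of_continuousOn (hσ'.mono hsub)
    have hnh : ball ζ s ∈ 𝓝 z₀ := isOpen_ball.mem_nhds (mem_ball.2 hs1)
    have hss : ball ζ s ⊆ ball ζ r := ball_subset_ball hs2.le
    refine (intervalIntegral.hasDerivAt_integral_of_dominated_loc_of_deriv_le (μ := volume)
      (F := F) (F' := F') (bound := fun _ => 2 * M) hnh ?_ (hFi z₀ hz₀) ?_ ?_ ?_ ?_).2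
    · filter_upwards [hnh] with z hz
      exact ((hFc z (hss hz)).mono hIoc).aestronglyMeasurable measurableSet_uIoc
    · exact ((hF'c z₀ hz₀).mono hIoc).aestronglyMeasurable measurableSet_uIoc
    · refine Eventually.of_forall fun t ht x hx => ?_
      have ht' := hIoc ht
      have h1 : ‖deriv σ (ζ + (t : ℂ) ^ 2 * (x - ζ))‖ ≤ M :=
        hM _ (ball_subset_closedBall (hmem s x hx t ht'))
      have h2 : ‖F' x t‖ = 2 * t ^ (m + 3) * ‖deriv σ (ζ + (t : ℂ) ^ 2 * (x - ζ))‖ := by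
        rw [hF']
        simp only [norm_mul, norm_pow, Complex.norm_real, Real.norm_eq_abs, abs_of_nonneg ht'.1,
          Complex.norm_ofNat]
      rw [h2]
      have h3 : t ^ (m + 3) ≤ 1 := pow_le_one₀ ht'.1 ht'.2
      have h4 : 0 ≤ t ^ (m + 3) := pow_nonneg ht'.1 _
      have h5 := norm_nonneg (deriv σ (ζ + (t : ℂ) ^ 2 * (x - ζ)))
      nlinarith [mul_nonneg (sub_nonneg.2 h3) h5]
    · exact intervalIntegrable_const
    · refine Eventually.of_forall fun t ht x hx => ?_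
      have ht' := hIoc ht
      have hw := hmem r x (hss hx) t ht'
      have h1 : HasDerivAt (fun x : ℂ => ζ + (t : ℂ) ^ 2 * (x - ζ)) ((t : ℂ) ^ 2) x := by
        have := (((hasDerivAt_id x).sub_const ζ).const_mul ((t : ℂ) ^ 2)).const_add ζ
        simpa using this
      have h2 := ((hder _ hw).comp x h1).const_mul (2 * (t : ℂ) ^ (m + 1))
      have h3 : 2 * (t : ℂ) ^ (m + 1) * (deriv σ (ζ + (t : ℂ) ^ 2 * (x - ζ)) * (t : ℂ) ^ 2) =
          F' x t := by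
        rw [hF']
        ring
      rw [h3] at h2
      exact h2
  · intro z hz
    show ((m : ℂ) + 2) * (∫ u in (0 : ℝ)..1, F z u) + 2 * (z - ζ) * (∫ u in (0 : ℝ)..1, F' z u) =
      2 * σ z
    have h1 : ∀ u ∈ uIcc (0 : ℝ) 1, HasDerivAt
        (fun u : ℝ => 2 * (u : ℂ) ^ (m + 2) * σ (ζ + (u : ℂ) ^ 2 * (z - ζ)))
        (((m : ℂ) + 2) * F z u + 2 * (z - ζ) * F' z u) u := by
      intro u hu
      rw [uIcc_of_le zero_le_one] at hu
      have hw := hmem r z hz u hu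
      have h2 : HasDerivAt (fun w : ℂ => ζ + w ^ 2 * (z - ζ)) (2 * (u : ℂ) * (z - ζ)) (u : ℂ) := by
        have := (((hasDerivAt_pow 2 (u : ℂ))).mul_const (z - ζ)).const_add ζ
        simpa using this
      have h3 : HasDerivAt (fun w : ℂ => 2 * w ^ (m + 2)) (2 * (((m + 2 : ℕ) : ℂ) * (u : ℂ) ^ (m + 1)))
          (u : ℂ) := (hasDerivAt_pow (m + 2) (u : ℂ)).const_mul 2
      have h4 := h3.mul ((hder _ hw).comp (u : ℂ) h2)
      have h5 := h4.comp_ofReal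
      have h6 : (2 * (((m + 2 : ℕ) : ℂ) * (u : ℂ) ^ (m + 1))) *
            (σ ∘ fun w : ℂ => ζ + w ^ 2 * (z - ζ)) (u : ℂ) +
          2 * (u : ℂ) ^ (m + 2) *
            (deriv σ (ζ + (u : ℂ) ^ 2 * (z - ζ)) * (2 * (u : ℂ) * (z - ζ))) =
          ((m : ℂ) + 2) * F z u + 2 * (z - ζ) * F' z u := by
        rw [hF, hF']
        simp only [Function.comp_apply]
        push_cast
        ring
      rw [h6] at h5
      exact h5
    have h2 : IntervalIntegrable (fun u => ((m : ℂ) + 2) * F z u + 2 * (z - ζ) * F' z u)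
        volume 0 1 := ((hFi z hz).const_mul _).add ((hF'i z hz).const_mul _)
    have h3 := intervalIntegral.integral_eq_sub_of_hasDerivAt h1 h2
    rw [intervalIntegral.integral_add ((hFi z hz).const_mul _) ((hF'i z hz).const_mul _),
      intervalIntegral.integral_const_mul, intervalIntegral.integral_const_mul] at h3
    rw [h3]
    simp

theorem PRQ : PRQ_stmt := by
  intro B B₁ ζ m r₀ hr₀ hB₁ hB₁ζ hBB
  obtain ⟨r₁, hr₁, hr₁0, σ, hσ, hσ2⟩ := PRQ_root B₁ ζ r₀ 2 two_ne_zero hr₀ hB₁ hB₁ζ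
  obtain ⟨K, K', hK, hODE⟩ := PRQ_K σ ζ m r₁ hσ
  have hζ₁ : ζ ∈ ball ζ r₁ := mem_ball_self hr₁
  have hKζ : K ζ ≠ 0 := by
    intro h0
    have h1 := hODE ζ hζ₁
    rw [h0, sub_self, mul_zero, mul_zero, zero_mul, add_zero] at h1
    have h2 : σ ζ = 0 := by
      have := h1.symm
      simpa using this
    exact (hσ2 ζ hζ₁).2 h2
  have hKd : DifferentiableOn ℂ K (ball ζ r₁) := fun z hz =>
    (hK z hz).differentiableAt.differentiableWithinAt
  obtain ⟨r₂, hr₂, hr₂1, K₂, hK₂, hK₂p⟩ := PRQ_root (fun z => K z ^ 2) ζ r₁ (m + 2) (by omega) hr₁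
    (hKd.pow 2) (pow_ne_zero 2 hKζ)
  have hζ₂ : ζ ∈ ball ζ r₂ := mem_ball_self hr₂
  -- the local coordinate
  have hK₂a : AnalyticAt ℂ K₂ ζ := hK₂.analyticAt (isOpen_ball.mem_nhds hζ₂)
  have hha : AnalyticAt ℂ (fun z => (z - ζ) * K₂ z) ζ :=
    (analyticAt_id.sub analyticAt_const).mul hK₂a
  have hhd : HasDerivAt (fun z => (z - ζ) * K₂ z) (K₂ ζ) ζ := by
    have h1 := ((hasDerivAt_id ζ).sub_const ζ).fun_mul hK₂a.differentiableAt.hasDerivAt
    simpa using h1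
  have hh' : deriv (fun z => (z - ζ) * K₂ z) ζ ≠ 0 := by
    rw [hhd.deriv]
    exact (hK₂p ζ hζ₂).2
  obtain ⟨r₃, hr₃, hinj⟩ : ∃ r₃ > (0 : ℝ), InjOn (fun z => (z - ζ) * K₂ z) (ball ζ r₃) := by
    let i : ℂ ≃L[ℂ] ℂ := .unitsEquivAut ℂ (.mk0 _ hh')
    have hfd : HasStrictFDerivAt (fun z => (z - ζ) * K₂ z) i.toContinuousLinearMap ζ :=
      hha.hasStrictDerivAt
    have hx := HasStrictFDerivAt.mem_toOpenPartialHomeomorph_source hfd
    have hinj := (hfd.toOpenPartialHomeomorph (fun z => (z - ζ) * K₂ z)).injOn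
    rw [HasStrictFDerivAt.toOpenPartialHomeomorph_coe] at hinj
    obtain ⟨r₃, hr₃, h₃⟩ := Metric.isOpen_iff.1
      (hfd.toOpenPartialHomeomorph (fun z => (z - ζ) * K₂ z)).open_source ζ hx
    exact ⟨r₃, hr₃, hinj.mono h₃⟩
  have hrb : ∀ z ∈ ball ζ (min r₂ r₃), z ∈ ball ζ r₀ ∧ z ∈ ball ζ r₁ ∧ z ∈ ball ζ r₂ ∧
      z ∈ ball ζ r₃ := by
    intro z hz
    have h2 : z ∈ ball ζ r₂ := ball_subset_ball (min_le_left _ _) hz
    have h1 : z ∈ ball ζ r₁ := ball_subset_ball hr₂1 h2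
    exact ⟨ball_subset_ball hr₁0 h1, h1, h2, ball_subset_ball (min_le_right _ _) hz⟩
  have hKne : ∀ z ∈ ball ζ r₂, K z ≠ 0 := by
    intro z hz h0
    have h1 := (hK₂p z hz).1
    have h2 := (hK₂p z hz).2
    rw [h0, zero_pow two_ne_zero] at h1
    exact h2 (pow_eq_zero_iff (by omega)|>.1 h1)
  have hQd : ∀ z ∈ ball ζ r₁, HasDerivAt (fun z => (z - ζ) ^ (m + 2) * K z ^ 2)
      ((z - ζ) ^ (m + 1) * K z * (2 * σ z)) z := by
    intro z hz
    have h1 : HasDerivAt (fun z : ℂ => (z - ζ) ^ (m + 2))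
        (((m + 2 : ℕ) : ℂ) * (z - ζ) ^ (m + 1)) z := by
      have := ((hasDerivAt_id z).sub_const ζ).fun_pow (m + 2)
      simpa using this
    have h2 : HasDerivAt (fun z : ℂ => K z ^ 2) (2 * K z * K' z) z := by
      have := (hK z hz).fun_pow 2
      simpa using this
    have h3 := h1.mul h2
    have h4 : ((m + 2 : ℕ) : ℂ) * (z - ζ) ^ (m + 1) * K z ^ 2 +
        (z - ζ) ^ (m + 2) * (2 * K z * K' z) = (z - ζ) ^ (m + 1) * K z * (2 * σ z) := by
      rw [← hODE z hz]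
      push_cast
      ring
    rw [h4] at h3
    exact h3
  refine ⟨min r₂ r₃, lt_min hr₂ hr₃, (min_le_left _ _).trans (hr₂1.trans hr₁0),
    fun z => (z - ζ) ^ (m + 2) * K z ^ 2, ?_, ?_, ?_, ?_⟩
  · intro z hz
    exact (hQd z (hrb z hz).2.1).differentiableAt.differentiableWithinAt
  · intro z hz
    obtain ⟨hz0, hz1, hz2, hz3⟩ := hrb z hz
    rw [(hQd z hz1).deriv, hBB z hz0, ← (hσ2 z hz1).1]
    ring
  · intro z hz
    obtain ⟨hz0, hz1, hz2, hz3⟩ := hrb z hz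
    constructor
    · intro h0
      rcases mul_eq_zero.1 h0 with h1 | h1
      · exact sub_eq_zero.1 (pow_eq_zero_iff (by omega)|>.1 h1)
      · exact absurd (pow_eq_zero_iff two_ne_zero|>.1 h1) (hKne z hz2)
    · intro h0
      show (z - ζ) ^ (m + 2) * K z ^ 2 = 0
      rw [h0, sub_self, zero_pow (by omega), zero_mul]
  · intro s F hF
    classical
    have h1 : F.card = (F.image (fun z => (z - ζ) * K₂ z)).card := by
      refine (Finset.card_image_of_injOn ?_).symm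
      intro x hx y hy hxy
      exact hinj (hrb x (hF x hx).1).2.2.2 (hrb y (hF y hy).1).2.2.2 hxy
    have h2 : F.image (fun z => (z - ζ) * K₂ z) ⊆ (Polynomial.nthRoots (m + 2) s).toFinset := by
      intro w hw
      obtain ⟨z, hz, rfl⟩ := Finset.mem_image.1 hw
      rw [Multiset.mem_toFinset, Polynomial.mem_nthRoots (by omega)]
      obtain ⟨hz0, hz1, hz2, hz3⟩ := hrb z (hF z hz).1
      rw [mul_pow, (hK₂p z hz2).1]
      exact (hF z hz).2
    rw [h1]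
    exact (Finset.card_le_card h2).trans ((Multiset.toFinset_card_le _).trans
      (Polynomial.card_nthRoots _ _))

end MPS
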